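import Pool.Agent.Helper82.BR.St

/-! # Project BR: module SUM (sums of two distinct elements) -/

set_option autoImplicit false

namespace Pool.Agent.Helper36.BR

open Pool.Agent.Helper82.BR

/-- MODULE SUM. -/
theorem hSUM : StSUM := by
  intro A hA
  have hne : A.Nonempty := Finset.card_pos.1 (by omega)
  obtain ⟨m, hm⟩ : ∃ m, m = A.min' hne := ⟨_, rfl⟩
  obtain ⟨M, hM⟩ : ∃ M, M = A.max' hne := ⟨_, rfl⟩
  have hmA : m ∈ A := by rw [hm]; exact A.min'_mem hne
  have hMA : M ∈ A := by rw [hM]; exact A.max'_mem hne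
  have hml : ∀ y ∈ A, m ≤ y := fun y hy => by rw [hm]; exact A.min'_le y hy
  have hMl : ∀ y ∈ A, y ≤ M := fun y hy => by rw [hM]; exact A.le_max' y hy
  have hmM : m < M := by
    rw [hm, hM]
    exact A.min'_lt_max'_of_card (by omega)
  have hMe : M ∈ A.erase m := Finset.mem_erase.2 ⟨hmM.ne', hMA⟩
  have c1 : ((A.erase m).image (fun y => m + y)).card = A.card - 1 := by
    rw [Finset.card_image_of_injective _ (add_right_injective m), Finset.card_erase_of_mem hmA]
  have c2 : (((A.erase m).erase M).image (fun y => y + M)).card = A.card - 1 - 1 := by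
    rw [Finset.card_image_of_injective _ (add_left_injective M), Finset.card_erase_of_mem hMe,
      Finset.card_erase_of_mem hmA]
  have hd : Disjoint ((A.erase m).image (fun y => m + y))
      (((A.erase m).erase M).image (fun y => y + M)) := by
    rw [Finset.disjoint_left]
    intro x h1 h2
    obtain ⟨y, hy, rfl⟩ := Finset.mem_image.1 h1
    obtain ⟨z, hz, hzy⟩ := Finset.mem_image.1 h2
    have hy' := hMl y (Finset.mem_of_mem_erase hy)
    have hz1 := Finset.mem_erase.1 (Finset.mem_of_mem_erase hz)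
    have hz2 := hml z hz1.2
    have hz3 : m < z := lt_of_le_of_ne hz2 (Ne.symm hz1.1)
    linarith
  have hs : ((A.erase m).image (fun y => m + y)) ∪ (((A.erase m).erase M).image (fun y => y + M)) ⊆
      (A.offDiag).image (fun x => x.1 + x.2) := by
    intro x hx
    rcases Finset.mem_union.1 hx with h | h
    · obtain ⟨y, hy, rfl⟩ := Finset.mem_image.1 h
      have hy' := Finset.mem_erase.1 hy
      exact Finset.mem_image.2 ⟨(m, y), Finset.mem_offDiag.2 ⟨hmA, hy'.2, Ne.symm hy'.1⟩, rfl⟩
    · obtain ⟨y, hy, rfl⟩ := Finset.mem_image.1 h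
      have hy' := Finset.mem_erase.1 hy
      exact Finset.mem_image.2 ⟨(y, M), Finset.mem_offDiag.2
        ⟨Finset.mem_of_mem_erase hy'.2, hMA, hy'.1⟩, rfl⟩
  have h1 := Finset.card_le_card hs
  rw [Finset.card_union_of_disjoint hd, c1, c2] at h1
  omega

end Pool.Agent.Helper36.BR
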